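import Pool.Agent.Lib.MP_fb3619_al.H91.Kcls

/-! K0C and CLSA. -/

universe u

namespace Pool.Agent.FourGp.H91

open Equiv

section

variable {G : Type u} [Group G] {H K : Subgroup G} {a b c : G}

theorem ptA (h : Cfg H K a b c) : IsPt H a :=
  ⟨h.ha, h.haa, fun e => h.ea (e ▸ K.one_mem)⟩

theorem isPt_mul (h : Cfg H K a b c) {g : G} (hg : g ∈ K) (hi : a * g * a = g⁻¹) :
    IsPt H (a * g) := by
  refine ⟨H.mul_mem h.ha (h.le hg), ?_, ?_⟩
  · calc a * g * (a * g) = (a * g * a) * g := by group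
      _ = 1 := by rw [hi]; group
  · intro e
    apply h.ea
    have : a = g⁻¹ := eq_inv_of_mul_eq_one_left e
    rw [this]
    exact K.inv_mem hg

/-- One direction of K0C, for type `b`. -/
theorem k0c_aux (h : Cfg H K a b c) (hg : (inc H K).IsGeo)
    (hcr : ∀ x y : Pt H, (inc H K).perp x y → ((inc H K).cr x y).1 = x.1 * y.1)
    (hF : (inc H K).LemF) (hL : LineS.{u}) (hB : BtriS.{u}) (hKC : KclsS.{u}) (hI : InvtS.{u})
    (γ : G) (hγ : γ ∈ K) (hγc : γ * c = c * γ) (pa pb qb : Pt H) (ea : pa.1 = a)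
    (eb : pb.1 = b) (fb : qb.1 = b * γ) : γ ∈ K0 H K ↔ (inc H K).sim pb qb := by
  have hb : b * γ * b = γ⁻¹ := hI G H K c b a h.rot.swap γ hγ hγc.symm
  have hbi : b⁻¹ = b := inv_eq_of_mul_eq_one_right h.hbb
  obtain ⟨m, hm⟩ := sqrt_odd (h.odd _ hγ)
  have hδK : γ ^ m ∈ K := K.pow_mem hγ m
  have hδH := h.le hδK
  have hδb := inv_conj h.hbb hb m
  have hδc : γ ^ m * c = c * γ ^ m := (Commute.pow_left (show Commute γ c from hγc) m).eq
  have hδa : a * γ ^ m * a = (γ ^ m)⁻¹ := hI G H K c a b h.rot.rot (γ ^ m) hδK hδc.symm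
  have conjb : ∀ t : G, t * t = 1 → t * γ ^ m * t = (γ ^ m)⁻¹ →
      (γ ^ m)⁻¹ * t * γ ^ m = t * γ := by
    intro t ht h1
    calc (γ ^ m)⁻¹ * t * γ ^ m = t * γ ^ m * (t * t) * γ ^ m := by rw [← h1]; group
      _ = t * (γ ^ m * γ ^ m) := by rw [ht]; group
      _ = t * γ := by rw [hm]
  have hqb : qb = cj H ⟨γ ^ m, hδH⟩ pb := by
    apply Subtype.ext
    rw [cj_val, eb, fb, conjb b h.hbb hδb]
  constructor
  · intro hK0
    have h1 := (K0 H K).pow_mem hK0 m
    rw [hqb]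
    exact (mem_K0_iff hδK hδH).1 h1 pb
  · intro hsim
    rw [hqb] at hsim
    have hB1 := (hKC G H K a b c h).1 ⟨γ ^ m, hδH⟩ hδK
    have tb : ∀ y : Pt H, (inc H K).st pb y → (inc H K).sim y (cj H ⟨γ ^ m, hδH⟩ y) :=
      fun y hy => hB1 pb y hy hsim
    -- type c
    set pc : Pt H := ⟨c, h.hc, h.hcc, fun e => h.ec (e ▸ K.one_mem)⟩ with hpc
    have tc : ∀ y : Pt H, (inc H K).st y pc → (inc H K).sim y (cj H ⟨γ ^ m, hδH⟩ y) :=
      fun y hy => hB G H K a b c h pc ⟨γ ^ m, hδH⟩ hδK hδc.symm y hy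
    -- type a
    have pab : (inc H K).perp pa pb := by
      refine ⟨by rw [ea, eb, h.ab, h.ba], ?_⟩
      rw [ea, eb]
      intro e
      apply h.ec
      rw [← h.ab, e, h.hbb]
      exact K.one_mem
    have pbc : (inc H K).perp pb pc := by
      refine ⟨by rw [eb, hpc]; dsimp only; rw [h.bc, h.cb], ?_⟩
      rw [eb, hpc]
      dsimp only
      intro e
      apply h.ea
      rw [← h.bc, e, h.hcc]
      exact K.one_mem
    have pac : (inc H K).perp pa pc := by
      refine ⟨by rw [ea, hpc]; dsimp only; rw [h.ac, h.ca], ?_⟩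
      rw [ea, hpc]
      dsimp only
      intro e
      apply h.eb
      rw [← h.ac, e, h.hcc]
      exact K.one_mem
    have pqc : (inc H K).perp qb pc := by
      refine ⟨?_, ?_⟩
      · rw [fb, hpc]
        dsimp only
        rw [mul_assoc, hγc, ← mul_assoc, h.bc, ← mul_assoc, h.cb]
      · rw [fb, hpc]
        dsimp only
        intro e
        apply h.ea
        rw [← h.bc, ← e, ← mul_assoc, h.hbb, one_mul]
        exact hγ
    have hline := (hL (Pt H) (inc H K) hg hF pa pb pc qb pab pbc pac (hqb ▸ hsim) pqc).2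
    have hcrq : (inc H K).cr qb pc = cj H ⟨γ ^ m, hδH⟩ pa := by
      apply Subtype.ext
      rw [hcr _ _ pqc, cj_val, ea, fb, hpc]
      dsimp only
      rw [conjb a h.haa hδa, mul_assoc, hγc, ← mul_assoc, h.bc]
    rw [hcrq] at hline
    have ta : ∀ y : Pt H, (inc H K).st pa y → (inc H K).sim y (cj H ⟨γ ^ m, hδH⟩ y) :=
      fun y hy => hB1 pa y hy hline
    have hall : γ ^ m ∈ K0 H K := by
      rw [mem_K0_iff hδK hδH]
      intro y
      by_cases h1 : (inc H K).st pb y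
      · exact tb y h1
      by_cases h2 : (inc H K).st pa y
      · exact ta y h2
      apply tc
      refine hg.three pa pb pc y (hg.perp_st _ _ pab) (hg.perp_st _ _ pac) (hg.perp_st _ _ pbc)
        (fun e => h2 (hg.st_symm _ _ e)) (fun e => h1 (hg.st_symm _ _ e))
    rw [← hm]
    exact (K0 H K).mul_mem hall hall

/-- K0C. -/
theorem k0c (_hR : RebaS.{u}) (hG : GeomS.{u}) (hF : LemfS.{u}) (hL : LineS.{u}) (hB : BtriS.{u})
    (hKC : KclsS.{u}) (hI : InvtS.{u}) : K0cS.{u} := by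
  intro G _ H K a b c h γ hγ hγc pa pb qa qb ea eb fa fb
  have hg := (hG G H K a b c h).1
  have hcr := (hG G H K a b c h).2.2
  have hf := hF G H K a b c h
  exact ⟨k0c_aux h hg hcr hf hL hB hKC hI γ hγ hγc pa pb qb ea eb fb,
    k0c_aux h.swap hg hcr hf hL hB hKC hI γ hγ hγc pb pa qa eb ea fa⟩

/-- CLSA. -/
theorem clsa (hG : GeomS.{u}) (hF : LemfS.{u}) (hP : ProjS.{u}) (hKC : KclsS.{u}) (hK0 : K0cS.{u})
    (hI : InvtS.{u}) : ClsaS.{u} := by
  intro G _ H K a b c h pb y eb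
  have hg := (hG G H K a b c h).1
  have hcr := (hG G H K a b c h).2.2
  have hf := hF G H K a b c h
  have hbb := h.hbb
  have hyy := y.2.2.1
  have hyi : y.1⁻¹ = y.1 := inv_eq_of_mul_eq_one_right hyy
  have hbi : b⁻¹ = b := inv_eq_of_mul_eq_one_right hbb
  have hconj := (hKC G H K a b c h).2.2
  constructor
  · intro hsim
    have hst := hg.sim_st hsim
    have hbyK : b * y.1 ∈ K := by
      rw [← eb]
      exact hst
    set pa : Pt H := ⟨a, h.ha, h.haa, fun e => h.ea (e ▸ K.one_mem)⟩ with hpa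
    set pc : Pt H := ⟨c, h.hc, h.hcc, fun e => h.ec (e ▸ K.one_mem)⟩ with hpc
    have pab : (inc H K).perp pa pb := by
      refine ⟨by rw [hpa, eb]; dsimp only; rw [h.ab, h.ba], ?_⟩
      rw [hpa, eb]
      dsimp only
      intro e
      apply h.ec
      rw [← h.ab, e, h.hbb]
      exact K.one_mem
    have pbc : (inc H K).perp pb pc := by
      refine ⟨by rw [eb, hpc]; dsimp only; rw [h.bc, h.cb], ?_⟩
      rw [eb, hpc]
      dsimp only
      intro e
      apply h.ea
      rw [← h.bc, e, h.hcc]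
      exact K.one_mem
    have pac : (inc H K).perp pa pc := by
      refine ⟨by rw [hpa, hpc]; dsimp only; rw [h.ac, h.ca], ?_⟩
      rw [hpa, hpc]
      dsimp only
      intro e
      apply h.eb
      rw [← h.ac, e, h.hcc]
      exact K.one_mem
    have nyc : ¬ (inc H K).st y pc := fun e => hg.perp_st _ _ pbc (hg.st_trans _ _ _ hst e)
    set m := (inc H K).cr y pc with hmdef
    have pym : (inc H K).perp y m := hg.cr_l _ _ nyc
    have pcm : (inc H K).perp pc m := hg.cr_r _ _ nyc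
    have pmc := hg.perp_symm _ _ pcm
    -- the type of m is the type of a
    have sma : (inc H K).st m pa := by
      refine hg.three pb pc pa m (hg.perp_st _ _ pbc)
        (fun e => hg.perp_st _ _ pab (hg.st_symm _ _ e))
        (fun e => hg.perp_st _ _ pac (hg.st_symm _ _ e)) ?_ (hg.perp_st _ _ pmc)
      intro e
      exact hg.perp_st _ _ pym (hg.st_symm _ _ (hg.st_trans _ _ _ e hst))
    have hγ : a * m.1 ∈ K := hg.st_symm _ _ sma
    have hmc : m.1 * c = c * m.1 := pmc.1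
    have hγc : a * m.1 * c = c * (a * m.1) := by
      rw [mul_assoc, hmc, ← mul_assoc, h.ac, ← mul_assoc, h.ca]
    -- the projection of y
    have hproj := (hP _ _ hg hf).1 pc pc pb y hsim
      (fun e => hg.perp_st _ _ pbc (hg.st_symm _ _ e)) (hg.st_refl _)
    rw [hg.pr_self (fun e => hg.perp_st _ _ pbc (hg.st_symm _ _ e)) (hg.st_refl _) pbc] at hproj
    have hpr : ((inc H K).pr pc pc y).1 = b * (a * m.1) := by
      change ((inc H K).cr m pc).1 = _
      rw [hcr _ _ pmc, hmc, ← mul_assoc, h.ba]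
    have hmeq : m.1 = a * (a * m.1) := by rw [← mul_assoc, h.haa, one_mul]
    have hγ0 : a * m.1 ∈ K0 H K :=
      ((hK0 G H K a b c h (a * m.1) hγ hγc pa pb m _ rfl eb hmeq hpr).1).2 hproj
    -- δ
    obtain ⟨q, hq⟩ := sqrt_odd (h.odd _ hγ)
    have hδ0 : (a * m.1) ^ q ∈ K0 H K := (K0 H K).pow_mem hγ0 q
    have hδa : a * (a * m.1) ^ q * a = ((a * m.1) ^ q)⁻¹ := by
      refine inv_conj h.haa ?_ q
      have hmi : m.1⁻¹ = m.1 := inv_eq_of_mul_eq_one_right m.2.2.1
      have hai : a⁻¹ = a := inv_eq_of_mul_eq_one_right h.haa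
      rw [mul_inv_rev, hmi, hai, ← mul_assoc, h.haa, one_mul]
    set δ := (a * m.1) ^ q with hδdef
    have hδK : δ ∈ K := hδ0.1
    have hδH : δ ∈ H := hδ0.2.1
    -- a = δ m δ⁻¹
    have ham : δ * m.1 * δ⁻¹ = a := by
      have h1 : δ⁻¹ * a * δ = m.1 := by
        calc δ⁻¹ * a * δ = a * δ * (a * a) * δ := by rw [← hδa]; group
          _ = a * (δ * δ) := by rw [h.haa]; group
          _ = m.1 := by rw [hq, ← mul_assoc, h.haa, one_mul]
      rw [← h1]
      group
    set y' := cj H ⟨δ, hδH⟩⁻¹ y with hy'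
    have hy'v : y'.1 = δ * y.1 * δ⁻¹ := by rw [hy', cj_val]; simp
    have hay' : a * y'.1 = y'.1 * a := by
      have h0 := pym.1
      have key : δ * m.1 * δ⁻¹ * (δ * y.1 * δ⁻¹) = δ * y.1 * δ⁻¹ * (δ * m.1 * δ⁻¹) := by
        calc δ * m.1 * δ⁻¹ * (δ * y.1 * δ⁻¹) = δ * (m.1 * y.1) * δ⁻¹ := by group
          _ = δ * (y.1 * m.1) * δ⁻¹ := by rw [h0]
          _ = δ * y.1 * δ⁻¹ * (δ * m.1 * δ⁻¹) := by group
      rw [ham, ← hy'v] at key
      exact key
    have hyy' : (inc H K).sim y y' := by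
      have h1 := (K0 H K).inv_mem hδ0
      have h2 := (mem_K0_iff h1.1 h1.2.1).1 h1 y
      exact h2
    have hby' := Inc.IsGeo.sim_trans hsim hyy'
    have hα : b * y'.1 ∈ K := by
      have := hg.sim_st hby'
      rw [← eb]
      exact this
    have hαa : b * y'.1 * a = a * (b * y'.1) := by
      rw [mul_assoc, ← hay', ← mul_assoc, h.ba, ← mul_assoc, h.ab]
    have hy'b : y'.1 = b * (b * y'.1) := by rw [← mul_assoc, hbb, one_mul]
    -- the fourth point
    have hbα : b * (b * y'.1) * b = (b * y'.1)⁻¹ :=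
      hI G H K a b c h _ hα hαa.symm
    have hcα : c * (b * y'.1) * c = (b * y'.1)⁻¹ := by
      exact hI G H K a c b (by
        have := h.rot.rot
        exact this.swap) _ hα hαa.symm
    have ptq : IsPt H (c * (b * y'.1)) := isPt_mul h.rot.rot hα hcα
    have hα0 : b * y'.1 ∈ K0 H K :=
      ((hK0 G H K b c a h.rot (b * y'.1) hα hαa pb pc y' ⟨_, ptq⟩ eb rfl hy'b rfl).2).2 hby'
    obtain ⟨p, hp⟩ := sqrt_odd (h.odd _ hα)
    have hε0 : (b * y'.1) ^ p ∈ K0 H K := (K0 H K).pow_mem hα0 p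
    have hεb := inv_conj hbb hbα p
    set ε := (b * y'.1) ^ p with hεdef
    have hyε : y'.1 = ε⁻¹ * b * ε := by
      calc y'.1 = b * (b * y'.1) := hy'b
        _ = b * (ε * ε) := by rw [hp]
        _ = b * ε * (b * b) * ε := by rw [hbb]; group
        _ = ε⁻¹ * b * ε := by rw [← hεb]; group
    have hyδ : y.1 = (ε * δ)⁻¹ * b * (ε * δ) := by
      calc y.1 = δ⁻¹ * (δ * y.1 * δ⁻¹) * δ := by group
        _ = δ⁻¹ * (ε⁻¹ * b * ε) * δ := by rw [← hy'v, hyε]
        _ = (ε * δ)⁻¹ * b * (ε * δ) := by group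
    have hεδ := (K0 H K).mul_mem hε0 hδ0
    have h9 := hconj b h.hb _ ((K0 H K).inv_mem hεδ)
    rw [hbi] at h9
    have h10 := (K0 H K).mul_mem h9 hεδ
    have h11 : b * (ε * δ)⁻¹ * b * (ε * δ) = b * y.1 := by
      rw [hyδ]
      group
    rw [h11] at h10
    exact h10
  · intro hk
    have hkK : b * y.1 ∈ K := hk.1
    have hinv : b * (b * y.1) * b = (b * y.1)⁻¹ := by
      rw [mul_inv_rev, hyi, hbi, ← mul_assoc, hbb, one_mul]
    obtain ⟨q, hq⟩ := sqrt_odd (h.odd _ hkK)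
    have h1 := (K0 H K).pow_mem hk q
    have h2 := inv_conj hbb hinv q
    have h3 : y = cj H ⟨(b * y.1) ^ q, h1.2.1⟩ pb := by
      apply Subtype.ext
      rw [cj_val, eb]
      dsimp only
      calc y.1 = b * (b * y.1) := by rw [← mul_assoc, hbb, one_mul]
        _ = b * ((b * y.1) ^ q * (b * y.1) ^ q) := by rw [hq]
        _ = b * (b * y.1) ^ q * (b * b) * (b * y.1) ^ q := by rw [hbb]; group
        _ = ((b * y.1) ^ q)⁻¹ * b * (b * y.1) ^ q := by rw [← h2]; group
    have h4 := (mem_K0_iff h1.1 h1.2.1).1 h1 pb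
    rw [h3]
    exact h4

end

end Pool.Agent.FourGp.H91
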