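import Pool.Agent.Lib.MP_fb3619_al.Iface

/-! Square roots of elements of odd order, elementary facts on configurations. -/

universe u

namespace Pool.Agent.FourGp.H91

open Equiv

section sq

variable {G : Type u} [Group G]

/-- Square root of an element of odd order. -/
theorem sqrt_odd {k : G} (hk : ∃ n : ℕ, k ^ (2 * n + 1) = 1) :
    ∃ m : ℕ, k ^ m * k ^ m = k := by
  obtain ⟨n, hn⟩ := hk
  refine ⟨n + 1, ?_⟩
  rw [← pow_add, show n + 1 + (n + 1) = 2 * n + 1 + 1 by omega, pow_succ, hn, one_mul]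

theorem sq_uniq {r s : G} (hr : ∃ n : ℕ, r ^ (2 * n + 1) = 1) (hs : ∃ n : ℕ, s ^ (2 * n + 1) = 1)
    (e : r * r = s * s) : r = s := by
  obtain ⟨n, hn⟩ := hr
  obtain ⟨m, hm⟩ := hs
  have h1 : r ^ ((2 * n + 1) * (2 * m + 1)) = 1 := by rw [pow_mul, hn, one_pow]
  have h2 : s ^ ((2 * n + 1) * (2 * m + 1)) = 1 := by rw [mul_comm, pow_mul, hm, one_pow]
  have h3 : (2 * n + 1) * (2 * m + 1) + 1 = 2 * (2 * n * m + n + m + 1) := by ring
  calc r = r ^ ((2 * n + 1) * (2 * m + 1) + 1) := by rw [pow_succ, h1, one_mul]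
    _ = (r * r) ^ (2 * n * m + n + m + 1) := by rw [h3, pow_mul, pow_two]
    _ = (s * s) ^ (2 * n * m + n + m + 1) := by rw [e]
    _ = s ^ ((2 * n + 1) * (2 * m + 1) + 1) := by rw [h3, pow_mul, pow_two]
    _ = s := by rw [pow_succ, h2, one_mul]

theorem inv_conj {z k : G} (hz : z * z = 1) (h : z * k * z = k⁻¹) (m : ℕ) :
    z * k ^ m * z = (k ^ m)⁻¹ := by
  have hzi : z⁻¹ = z := inv_eq_of_mul_eq_one_right hz
  have h1 : z * k ^ m * z⁻¹ = (z * k * z⁻¹) ^ m := (conj_pow).symm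
  rw [hzi, h, inv_pow] at h1
  exact h1

end sq

section cfg

variable {G : Type u} [Group G] {H K : Subgroup G} {a b c : G}

theorem mul_self_mem (h : Cfg H K a b c) {x : G} (hx : x ∈ H) : x * x ∈ K := by
  have key : ∀ v : G, v ∈ H → v * v = 1 → x * v ∈ K → x * x ∈ K := by
    intro v hv hvv hxv
    have h1 : v⁻¹ = v := inv_eq_of_mul_eq_one_right hvv
    have h2 := h.nor v hv _ hxv
    have h3 := K.mul_mem hxv h2
    have h4 : x * v * (v⁻¹ * (x * v) * v) = x * x := by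
      calc x * v * (v⁻¹ * (x * v) * v) = x * (x * (v * v)) := by group
        _ = x * x := by rw [hvv, mul_one]
    rw [h4] at h3
    exact h3
  rcases h.top x hx with e | e | e | e
  · exact K.mul_mem e e
  · exact key a h.ha h.haa e
  · exact key b h.hb h.hbb e
  · exact key c h.hc h.hcc e

theorem comm_mem (h : Cfg H K a b c) {x y : G} (hx : x ∈ H) (hy : y ∈ H) :
    x⁻¹ * y⁻¹ * x * y ∈ K := by
  have h1 := K.mul_mem (K.mul_mem (mul_self_mem h (H.inv_mem hx))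
    (mul_self_mem h (H.mul_mem hx (H.inv_mem hy)))) (mul_self_mem h hy)
  have h2 : x⁻¹ * x⁻¹ * (x * y⁻¹ * (x * y⁻¹)) * (y * y) = x⁻¹ * y⁻¹ * x * y := by group
  rw [h2] at h1
  exact h1

theorem conj_mem (h : Cfg H K a b c) {x k : G} (hx : x ∈ H) (hk : k ∈ K) (hxx : x * x = 1) :
    x * k * x ∈ K := by
  have h1 : x⁻¹ = x := inv_eq_of_mul_eq_one_right hxx
  have h2 := h.nor x hx k hk
  rw [h1] at h2
  exact h2

/-- Points of the same type are conjugate in `K`. -/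
theorem conj_of_st (h : Cfg H K a b c) {x y : Pt H} (hxy : x.1 * y.1 ∈ K) :
    ∃ m : ℕ, y.1 = ((x.1 * y.1) ^ m)⁻¹ * x.1 * (x.1 * y.1) ^ m ∧
      (x.1 * y.1) ^ m * (x.1 * y.1) ^ m = x.1 * y.1 := by
  obtain ⟨m, hm⟩ := sqrt_odd (h.odd _ hxy)
  refine ⟨m, ?_, hm⟩
  have hx := x.2.2.1
  have hy := y.2.2.1
  have h1 : x.1 * (x.1 * y.1) * x.1 = (x.1 * y.1)⁻¹ := by
    have e1 : x.1⁻¹ = x.1 := inv_eq_of_mul_eq_one_right hx
    have e2 : y.1⁻¹ = y.1 := inv_eq_of_mul_eq_one_right hy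
    rw [mul_inv_rev, e1, e2, ← mul_assoc, hx, one_mul]
  have h2 := inv_conj hx h1 m
  calc y.1 = x.1 * x.1 * y.1 := by rw [hx, one_mul]
    _ = x.1 * ((x.1 * y.1) ^ m * (x.1 * y.1) ^ m) := by rw [hm, mul_assoc]
    _ = (x.1 * (x.1 * y.1) ^ m * x.1) * x.1 * (x.1 * y.1) ^ m := by
        simp only [mul_assoc]
        rw [← mul_assoc x.1 x.1 ((x.1 * y.1) ^ m), hx, one_mul]
    _ = ((x.1 * y.1) ^ m)⁻¹ * x.1 * (x.1 * y.1) ^ m := by rw [h2]

theorem k_le (h : Cfg H K a b c) {k : G} (hk : k ∈ K) : k ∈ H := h.le hk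

end cfg

/-- DECO. -/
theorem deco : DecoS.{u} := by
  intro G _ H K a b c h z k hk
  have hz := z.2.2.1
  have hzi : z.1⁻¹ = z.1 := inv_eq_of_mul_eq_one_right hz
  have hd : k⁻¹ * (z.1 * k * z.1) ∈ K := K.mul_mem (K.inv_mem hk) (conj_mem h z.2.1 hk hz)
  have hdz : z.1 * (k⁻¹ * (z.1 * k * z.1)) * z.1 = (k⁻¹ * (z.1 * k * z.1))⁻¹ := by
    calc z.1 * (k⁻¹ * (z.1 * k * z.1)) * z.1 = z.1 * k⁻¹ * z.1 * k * (z.1 * z.1) := by group
      _ = z.1 * k⁻¹ * z.1 * k := by rw [hz, mul_one]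
      _ = z.1⁻¹ * k⁻¹ * z.1⁻¹ * k := by rw [hzi]
      _ = (k⁻¹ * (z.1 * k * z.1))⁻¹ := by group
  obtain ⟨m, hm⟩ := sqrt_odd (h.odd _ hd)
  have h2 := inv_conj hz hdz m
  set d := k⁻¹ * (z.1 * k * z.1) with hdd
  set r := d ^ m with hr
  have hrK : r ∈ K := K.pow_mem hd m
  have hzk : z.1 * k * z.1 = k * d := by rw [hdd]; group
  have hzr : z.1 * r = r⁻¹ * z.1 := by
    calc z.1 * r = z.1 * r * (z.1 * z.1) := by rw [hz, mul_one]
      _ = z.1 * r * z.1 * z.1 := by group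
      _ = r⁻¹ * z.1 := by rw [h2]
  refine ⟨k * r, K.mul_mem hk hrK, r⁻¹, K.inv_mem hrK, ?_, ?_, by group, ?_⟩
  · -- w z = z w
    calc k * r * z.1 = k * d * r⁻¹ * z.1 := by rw [← hm]; group
      _ = z.1 * k * z.1 * (r⁻¹ * z.1) := by rw [hzk]; group
      _ = z.1 * k * z.1 * (z.1 * r) := by rw [hzr]
      _ = z.1 * k * (z.1 * z.1) * r := by group
      _ = z.1 * (k * r) := by rw [hz]; group
  · calc z.1 * r⁻¹ * z.1 = (z.1⁻¹ * r * z.1⁻¹)⁻¹ := by group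
      _ = (z.1 * r * z.1)⁻¹ := by rw [hzi]
      _ = (r⁻¹)⁻¹ := by rw [h2]
  · intro w' hw' s' hs' h1 h3 h4
    have h5 : s'⁻¹ * s'⁻¹ = r * r := by
      rw [hm, hdd]
      have e1 : z.1 * w' * z.1 = w' := by rw [← h1, mul_assoc, hz, mul_one]
      have e2 : z.1 * k * z.1 = w' * s'⁻¹ := by
        calc z.1 * k * z.1 = z.1 * w' * (z.1 * z.1) * s' * z.1 := by rw [hz, h4]; group
          _ = (z.1 * w' * z.1) * (z.1 * s' * z.1) := by group
          _ = w' * s'⁻¹ := by rw [e1, h3]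
      rw [e2, h4]
      group
    have h6 : s'⁻¹ = r := by
      refine sq_uniq (h.odd _ (K.inv_mem hs')) (h.odd _ hrK) h5
    rw [← h6, h4]
    group

/-- CJC. -/
theorem cjc : CjcS.{u} := by
  intro G _ H K a b c h k
  have tp : ∀ x : Pt H, (inc H K).st x (cj H k x) := by
    intro x
    change x.1 * ((k : G)⁻¹ * x.1 * k) ∈ K
    have h1 := K.mul_mem (mul_self_mem h x.2.1) (comm_mem h x.2.1 k.2)
    have h2 : x.1 * x.1 * (x.1⁻¹ * (k : G)⁻¹ * x.1 * k) = x.1 * ((k : G)⁻¹ * x.1 * k) := by group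
    rw [h2] at h1
    exact h1
  refine ⟨tp, tp, ?_⟩
  intro x y
  change (x.1 * y.1 = y.1 * x.1 ∧ x.1 ≠ y.1) ↔
    ((k : G)⁻¹ * x.1 * k * ((k : G)⁻¹ * y.1 * k) = (k : G)⁻¹ * y.1 * k * ((k : G)⁻¹ * x.1 * k) ∧
      (k : G)⁻¹ * x.1 * k ≠ (k : G)⁻¹ * y.1 * k)
  have e1 : (k : G)⁻¹ * x.1 * k * ((k : G)⁻¹ * y.1 * k) = (k : G)⁻¹ * (x.1 * y.1) * k := by group
  have e2 : (k : G)⁻¹ * y.1 * k * ((k : G)⁻¹ * x.1 * k) = (k : G)⁻¹ * (y.1 * x.1) * k := by group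
  rw [e1, e2]
  simp only [ne_eq, mul_left_inj, mul_right_inj]

end Pool.Agent.FourGp.H91
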