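import Pool.Agent.Lib.MP_fb3619_al.H91.Sq

/-! KCLS, K0C, CLSA: the action of `K` on the classes. -/

universe u

namespace Pool.Agent.FourGp.H91

open Equiv

section

variable {G : Type u} [Group G] {H K : Subgroup G} {a b c : G}

theorem cj_mul (k l : H) (x : Pt H) : cj H (k * l) x = cj H l (cj H k x) := by
  apply Subtype.ext
  simp only [cj_val, Subgroup.coe_mul]
  group

theorem cj_one (x : Pt H) : cj H 1 x = x := by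
  apply Subtype.ext
  simp

theorem cj_inv (k : H) (x : Pt H) : cj H k (cj H k⁻¹ x) = x := by
  rw [← cj_mul, inv_mul_cancel, cj_one]

theorem cj_inv' (k : H) (x : Pt H) : cj H k⁻¹ (cj H k x) = x := by
  rw [← cj_mul, mul_inv_cancel, cj_one]

variable (H K) in
/-- The elements of `K` fixing the classes of the type of `z`. -/
def Fx (z : Pt H) (k : H) : Prop := k.1 ∈ K ∧ ∀ y, (inc H K).st y z → (inc H K).sim y (cj H k y)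

theorem fx_mul (hg : (inc H K).IsGeo) (hc : ∀ k : H, (inc H K).Col (cj H k, cj H k)) {z : Pt H}
    {k l : H} (hk : Fx H K z k) (hl : Fx H K z l) : Fx H K z (k * l) := by
  refine ⟨K.mul_mem hk.1 hl.1, fun y hy => ?_⟩
  rw [cj_mul]
  refine Inc.IsGeo.sim_trans (hk.2 y hy) (hl.2 _ ?_)
  exact hg.st_trans _ _ _ (hg.st_symm _ _ ((hc k).tp y)) hy

theorem fx_inv (hg : (inc H K).IsGeo) (hc : ∀ k : H, (inc H K).Col (cj H k, cj H k)) {z : Pt H}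
    {k : H} (hk : Fx H K z k) : Fx H K z k⁻¹ := by
  refine ⟨K.inv_mem hk.1, fun y hy => ?_⟩
  have h1 := hk.2 (cj H k⁻¹ y) (hg.st_trans _ _ _ (hg.st_symm _ _ ((hc k⁻¹).tp y)) hy)
  rw [cj_inv] at h1
  exact Inc.IsGeo.sim_symm h1

theorem fx_conj (h : Cfg H K a b c) (hg : (inc H K).IsGeo)
    (hc : ∀ k : H, (inc H K).Col (cj H k, cj H k)) (hE : EqvS.{u}) {z : Pt H}
    {k : H} (hk : Fx H K z k) (l : H) : Fx H K z (l⁻¹ * k * l) := by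
  refine ⟨h.nor l l.2 _ hk.1, fun y hy => ?_⟩
  rw [cj_mul, cj_mul]
  have h1 := hk.2 (cj H l⁻¹ y) (hg.st_trans _ _ _ (hg.st_symm _ _ ((hc l⁻¹).tp y)) hy)
  have h2 := ((hE _ _ hg).2.2 _ (hc l) _ _ h1).1
  rw [show (cj H l, cj H l).1 (cj H l⁻¹ y) = y from cj_inv l y] at h2
  exact h2

/-- `z` inverts `K` modulo `Fx z`. -/
theorem fx_key (h : Cfg H K a b c) (hD : DecoS.{u}) (hg : (inc H K).IsGeo)
    (hc : ∀ k : H, (inc H K).Col (cj H k, cj H k)) (hE : EqvS.{u}) (hB : BtriS.{u}) (z : Pt H)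
    (k : H) (hk : k.1 ∈ K) : Fx H K z (k * (⟨z.1, z.2.1⟩ * k * ⟨z.1, z.2.1⟩)) := by
  obtain ⟨w, hw, s, hs, h1, h2, h3, -⟩ := hD G H K a b c h z k.1 hk
  have hz := z.2.2.1
  have hfw : Fx H K z ⟨w, h.le hw⟩ := ⟨hw, fun y hy => hB G H K a b c h z ⟨w, h.le hw⟩ hw h1.symm y hy⟩
  have h4 := fx_conj h hg hc hE hfw (⟨s, h.le hs⟩⁻¹)
  have h5 := fx_mul hg hc hfw h4
  have h6 : (⟨w, h.le hw⟩ : H) * ((⟨s, h.le hs⟩⁻¹)⁻¹ * ⟨w, h.le hw⟩ * ⟨s, h.le hs⟩⁻¹) =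
      k * (⟨z.1, z.2.1⟩ * k * ⟨z.1, z.2.1⟩) := by
    apply Subtype.ext
    simp only [Subgroup.coe_mul, inv_inv, Subgroup.coe_inv]
    calc w * (s * w * s⁻¹) = w * s * w * (z.1 * s * z.1) := by rw [h2]; group
      _ = w * s * (w * z.1) * s * z.1 := by group
      _ = k.1 * (z.1 * k.1 * z.1) := by rw [h1, h3]; group
  rw [h6] at h5
  exact h5

theorem fx_comm (h : Cfg H K a b c) (hD : DecoS.{u}) (hg : (inc H K).IsGeo)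
    (hc : ∀ k : H, (inc H K).Col (cj H k, cj H k)) (hE : EqvS.{u}) (hB : BtriS.{u}) (z : Pt H)
    (k l : H) (hk : k.1 ∈ K) (hl : l.1 ∈ K) : Fx H K z (k * l * k⁻¹ * l⁻¹) := by
  have h1 := fx_key h hD hg hc hE hB z k hk
  have h2 := fx_key h hD hg hc hE hB z l hl
  have h3 := fx_key h hD hg hc hE hB z (k * l) (K.mul_mem hk hl)
  have h4 := fx_mul hg hc (fx_mul hg hc h3 (fx_inv hg hc h2))
    (fx_inv hg hc (fx_conj h hg hc hE h1 l⁻¹))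
  have hz : (⟨z.1, z.2.1⟩ : H) * ⟨z.1, z.2.1⟩ = 1 := Subtype.ext z.2.2.1
  have h5 : k * l * (⟨z.1, z.2.1⟩ * (k * l) * ⟨z.1, z.2.1⟩) *
      (l * (⟨z.1, z.2.1⟩ * l * ⟨z.1, z.2.1⟩))⁻¹ *
      ((l⁻¹)⁻¹ * (k * (⟨z.1, z.2.1⟩ * k * ⟨z.1, z.2.1⟩)) * l⁻¹)⁻¹ = k * l * k⁻¹ * l⁻¹ := by
    have hzi : (⟨z.1, z.2.1⟩ : H)⁻¹ = ⟨z.1, z.2.1⟩ := inv_eq_of_mul_eq_one_right hz
    generalize (⟨z.1, z.2.1⟩ : H) = t at *
    have hti : t⁻¹ * t⁻¹ = 1 := by rw [hzi, hz]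
    calc k * l * (t * (k * l) * t) * (l * (t * l * t))⁻¹ * ((l⁻¹)⁻¹ * (k * (t * k * t)) * l⁻¹)⁻¹
        = k * l * t * k * (t⁻¹ * t⁻¹) * k⁻¹ * t⁻¹ * k⁻¹ * l⁻¹ := by group
      _ = k * l * k⁻¹ * l⁻¹ := by rw [hti]; group
  rw [h5] at h4
  exact h4

theorem mem_K0_iff {k : G} (hk : k ∈ K) (hH : k ∈ H) :
    k ∈ K0 H K ↔ ∀ x : Pt H, (inc H K).sim x (cj H ⟨k, hH⟩ x) := by
  constructor
  · rintro ⟨-, -, e⟩ x
    exact e x _ rfl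
  · intro e
    refine ⟨hk, hH, fun x y hy => ?_⟩
    have : y = cj H ⟨k, hH⟩ x := Subtype.ext hy
    rw [this]
    exact e x

theorem kcls_ii (h : Cfg H K a b c) (hD : DecoS.{u}) (hg : (inc H K).IsGeo)
    (hc : ∀ k : H, (inc H K).Col (cj H k, cj H k)) (hE : EqvS.{u}) (hB : BtriS.{u})
    (k : G) (hk : k ∈ K) (l : G) (hl : l ∈ K) : k⁻¹ * l⁻¹ * k * l ∈ K0 H K := by
  have hk' := h.le hk
  have hl' := h.le hl
  have hm : k⁻¹ * l⁻¹ * k * l ∈ K :=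
    K.mul_mem (K.mul_mem (K.mul_mem (K.inv_mem hk) (K.inv_mem hl)) hk) hl
  rw [mem_K0_iff hm (h.le hm)]
  intro x
  have h1 := fx_comm h hD hg hc hE hB x ⟨k, hk'⟩⁻¹ ⟨l, hl'⟩⁻¹ (K.inv_mem hk) (K.inv_mem hl)
  have h2 := h1.2 x (hg.st_refl x)
  have h3 : (⟨k, hk'⟩ : H)⁻¹ * (⟨l, hl'⟩ : H)⁻¹ * (⟨k, hk'⟩⁻¹)⁻¹ * (⟨l, hl'⟩⁻¹)⁻¹ =
      ⟨k⁻¹ * l⁻¹ * k * l, h.le hm⟩ := by
    apply Subtype.ext
    simp
  rw [h3] at h2
  exact h2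

theorem kcls_iii (h : Cfg H K a b c) (hg : (inc H K).IsGeo)
    (hc : ∀ k : H, (inc H K).Col (cj H k, cj H k)) (hE : EqvS.{u})
    (l : G) (hl : l ∈ H) (k : G) (hk : k ∈ K0 H K) : l⁻¹ * k * l ∈ K0 H K := by
  have hkK : k ∈ K := hk.1
  have hkH : k ∈ H := hk.2.1
  have hm := h.nor l hl k hkK
  rw [mem_K0_iff hm (h.le hm)]
  intro x
  have h0 : Fx H K x ⟨k, hkH⟩ := ⟨hkK, fun y _ => (mem_K0_iff hkK hkH).1 hk y⟩
  have h1 := (fx_conj h hg hc hE h0 ⟨l, hl⟩).2 x (hg.st_refl x)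
  exact h1

/-- KCLS. -/
theorem kcls (_hR : RebaS.{u}) (hG : GeomS.{u}) (hD : DecoS.{u}) (hC : CjcS.{u}) (hE : EqvS.{u})
    (hB : BtriS.{u}) : KclsS.{u} := by
  intro G _ H K a b c h
  have hg := (hG G H K a b c h).1
  have hc := hC G H K a b c h
  refine ⟨?_, fun k hk l hl => kcls_ii h hD hg hc hE hB k hk l hl,
    fun l hl k hk => kcls_iii h hg hc hE l hl k hk⟩
  intro k hk x y hxy hx
  obtain ⟨m, hm, -⟩ := conj_of_st h hxy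
  have hgK : (x.1 * y.1) ^ m ∈ K := K.pow_mem hxy m
  have hgH := h.le hgK
  set g : H := ⟨(x.1 * y.1) ^ m, hgH⟩ with hgdef
  have hy : y = cj H g x := Subtype.ext hm
  have hn := kcls_ii h hD hg hc hE hB g.1 hgK k.1 hk
  have hnK : g.1⁻¹ * k.1⁻¹ * g.1 * k.1 ∈ K := hn.1
  have hnH := hn.2.1
  -- y ^ k = ((x ^ k) ^ g) ^ n
  have h1 : cj H k y = cj H ⟨g.1⁻¹ * k.1⁻¹ * g.1 * k.1, hnH⟩ (cj H g (cj H k x)) := by
    apply Subtype.ext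
    rw [hy]
    simp only [cj_val]
    group
  rw [h1]
  have h2 := ((hE _ _ hg).2.2 _ (hc g) _ _ hx).1
  have h3 := (mem_K0_iff hnK hnH).1 hn (cj H g (cj H k x))
  refine Inc.IsGeo.sim_trans ?_ h3
  rw [hy]
  exact h2

end

end Pool.Agent.FourGp.H91
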